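import Mathlib
import Pool.Agent.TH290.CL.Ex

/-!
# Rotation numbers of the maps `x ↦ s + g x`
-/

set_option autoImplicit false

open Filter Set Topology Function

namespace Pool.Agent.N102.UF

open CircleDeg1Lift
open Pool.Agent.TH290.CL (ex ex_add ex_zero ex_eq_ex norm_ex ex_add_int)

/-- The lift `x ↦ s + g x`. -/
noncomputable def rot (g : CircleDeg1Lift) (s : ℝ) : CircleDeg1Lift :=
  (translate (Multiplicative.ofAdd s) : CircleDeg1Liftˣ) * g

theorem rot_apply (g : CircleDeg1Lift) (s x : ℝ) : rot g s x = s + g x := by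
  rw [rot, mul_apply, translate_apply]

theorem rot_zero (g : CircleDeg1Lift) : rot g 0 = g := by
  ext x
  rw [rot_apply, zero_add]

theorem rot_cont {g : CircleDeg1Lift} (hg : Continuous g) (s : ℝ) : Continuous (rot g s) := by
  have : (rot g s : ℝ → ℝ) = fun x => s + g x := by funext x; exact rot_apply g s x
  rw [this]
  exact continuous_const.add hg

theorem rot_mono {g : CircleDeg1Lift} (hg : StrictMono g) (s : ℝ) : StrictMono (rot g s) := by
  intro x y hxy
  rw [rot_apply, rot_apply]
  have := hg hxy
  linarith

/-- Poincaré's semiconjugacy -/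
theorem semi (f : CircleDeg1Lift) (hf : Continuous f) (hm : StrictMono f)
    (hα : Irrational (translationNumber f)) :
    ∃ t : ℝ → ℝ, Continuous t ∧ (∀ x, t (x + 1) = t x + 1) ∧
      ∀ x, t (f x) = translationNumber f + t x := by
  set α := translationNumber f with hαd
  have hsurj : Surjective f := f.continuous_iff_surjective.1 hf
  obtain ⟨F, hF⟩ := semiconj_of_isUnit_of_translationNumber_eq (f₁ := f)
    (f₂ := (translate (Multiplicative.ofAdd α) : CircleDeg1Liftˣ))
    (isUnit_iff_bijective.2 ⟨hm.injective, hsurj⟩) (Units.isUnit _)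
    (by rw [translationNumber_translate])
  have hFf : ∀ x, F (f x) = α + F x := by
    intro x
    have := hF x
    rw [translate_apply] at this
    exact this
  let A : AddSubgroup ℝ :=
    { carrier := {z | (∀ x, ∃ y, F y = F x + z) ∧ ∀ x, ∃ y, F y = F x - z}
      add_mem' := by
        rintro a b ⟨ha, ha'⟩ ⟨hb, hb'⟩
        refine ⟨fun x => ?_, fun x => ?_⟩
        · obtain ⟨y, hy⟩ := ha x
          obtain ⟨z, hz⟩ := hb y
          exact ⟨z, by rw [hz, hy]; ring⟩
        · obtain ⟨y, hy⟩ := ha' x
          obtain ⟨z, hz⟩ := hb' y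
          exact ⟨z, by rw [hz, hy]; ring⟩
      zero_mem' := ⟨fun x => ⟨x, by ring⟩, fun x => ⟨x, by ring⟩⟩
      neg_mem' := by
        rintro a ⟨ha, ha'⟩
        refine ⟨fun x => ?_, fun x => ?_⟩
        · obtain ⟨y, hy⟩ := ha' x
          exact ⟨y, by rw [hy]; ring⟩
        · obtain ⟨y, hy⟩ := ha x
          exact ⟨y, by rw [hy]; ring⟩ }
  have hA1 : (1 : ℝ) ∈ A := ⟨fun x => ⟨x + 1, F.map_add_one x⟩, fun x => ⟨x - 1, by
    have := F.map_sub_nat x 1
    simpa using this⟩⟩
  have hAα : α ∈ A := ⟨fun x => ⟨f x, by rw [hFf]; ring⟩, fun x => by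
    obtain ⟨y, hy⟩ := hsurj x
    refine ⟨y, ?_⟩
    have := hFf y
    rw [hy] at this
    rw [this]; ring⟩
  have hAd : Dense (A : Set ℝ) := by
    have h1 : Dense ((AddSubgroup.closure {α, 1} : AddSubgroup ℝ) : Set ℝ) := by
      rw [dense_addSubgroupClosure_pair_iff, div_one]
      exact hα
    refine h1.mono ?_
    have h2 : AddSubgroup.closure {α, 1} ≤ A := by
      rw [AddSubgroup.closure_le]
      rintro z (rfl | hz)
      · exact hAα
      · rw [mem_singleton_iff] at hz
        rw [hz]
        exact hA1
    exact h2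
  have hdr : DenseRange F := by
    have h1 : Dense ((fun z => F 0 + z) '' (A : Set ℝ)) :=
      (Homeomorph.addLeft (F 0)).surjective.denseRange.dense_image
        (Homeomorph.addLeft (F 0)).continuous hAd
    refine h1.mono ?_
    rintro _ ⟨z, hz, rfl⟩
    obtain ⟨y, hy⟩ := hz.1 0
    exact ⟨y, hy⟩
  exact ⟨F, F.monotone.continuous_of_denseRange hdr, F.map_add_one, hFf⟩

theorem joint_cont {g : CircleDeg1Lift} (hg : Continuous g) (n : ℕ) :
    Continuous fun p : ℝ × ℝ => (rot g p.1 ^ n) p.2 := by
  induction n with
  | zero =>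
    simp only [pow_zero, coe_one, id_eq]
    exact continuous_snd
  | succ n ih =>
    have : (fun p : ℝ × ℝ => (rot g p.1 ^ (n + 1)) p.2) =
        fun p : ℝ × ℝ => p.1 + g ((rot g p.1 ^ n) p.2) := by
      funext p
      rw [pow_succ', mul_apply, rot_apply]
    rw [this]
    exact continuous_fst.add (hg.comp ih)

/-- The rotation number depends continuously on the rotation. -/
theorem cont_tau {g : CircleDeg1Lift} (hg : Continuous g) :
    Continuous fun s => translationNumber (rot g s) := by
  rw [continuous_iff_continuousAt]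
  intro s0
  refine tendsto_order.2 ⟨fun a ha => ?_, fun a ha => ?_⟩
  · obtain ⟨q, hq1, hq2⟩ := exists_rat_btwn ha
    have hqd : (0 : ℝ) < q.den := by exact_mod_cast q.pos
    have hqe : (q : ℝ) = q.num / q.den := by exact_mod_cast (Rat.num_div_den q).symm
    have h1 : ∀ x, x + q.num < (rot g s0 ^ q.den) x := by
      apply lt_map_of_int_lt_translationNumber
      rw [translationNumber_pow]
      rw [hqe, div_lt_iff₀ hqd] at hq2
      linarith
    have h2 : ∀ᶠ s in 𝓝 s0, ∀ x ∈ Icc (0 : ℝ) 1, x + q.num < (rot g s ^ q.den) x := by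
      apply isCompact_Icc.eventually_forall_of_forall_eventually
      intro x _
      have hc := joint_cont hg q.den
      have h3 : Continuous fun p : ℝ × ℝ => p.2 + q.num := by fun_prop
      exact h3.continuousAt.eventually_lt hc.continuousAt (h1 x)
    filter_upwards [h2] with s hs
    have h4 : ∀ x, x + q.num < (rot g s ^ q.den) x := by
      intro x
      have := (rot g s ^ q.den).forall_map_sub_of_Icc (fun a => (q.num : ℝ) < a)
        (fun x hx => by have := hs x hx; linarith) x
      linarith
    have h5 := lt_translationNumber_of_forall_add_lt _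
      (continuous_pow _ (rot_cont hg s) q.den) h4
    rw [translationNumber_pow] at h5
    refine hq1.trans ?_
    rw [hqe, div_lt_iff₀ hqd]
    linarith
  · obtain ⟨q, hq1, hq2⟩ := exists_rat_btwn ha
    have hqd : (0 : ℝ) < q.den := by exact_mod_cast q.pos
    have hqe : (q : ℝ) = q.num / q.den := by exact_mod_cast (Rat.num_div_den q).symm
    have h1 : ∀ x, (rot g s0 ^ q.den) x < x + q.num := by
      apply map_lt_of_translationNumber_lt_int
      rw [translationNumber_pow]
      rw [hqe, lt_div_iff₀ hqd] at hq1
      linarith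
    have h2 : ∀ᶠ s in 𝓝 s0, ∀ x ∈ Icc (0 : ℝ) 1, (rot g s ^ q.den) x < x + q.num := by
      apply isCompact_Icc.eventually_forall_of_forall_eventually
      intro x _
      have hc := joint_cont hg q.den
      have h3 : Continuous fun p : ℝ × ℝ => p.2 + q.num := by fun_prop
      exact hc.continuousAt.eventually_lt h3.continuousAt (h1 x)
    filter_upwards [h2] with s hs
    have h4 : ∀ x, (rot g s ^ q.den) x < x + q.num := by
      intro x
      have := (rot g s ^ q.den).forall_map_sub_of_Icc (fun a => a < (q.num : ℝ))
        (fun x hx => by have := hs x hx; linarith) x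
      linarith
    have h5 := translationNumber_lt_of_forall_lt_add _
      (continuous_pow _ (rot_cont hg s) q.den) h4
    rw [translationNumber_pow] at h5
    refine lt_trans ?_ hq2
    rw [hqe, lt_div_iff₀ hqd]
    linarith

/-- If the rotation number is not constant near `0`, then there are uncountably many irrational
rotation numbers. -/
theorem uncountable_tau {g : CircleDeg1Lift} (hg : Continuous g) {κ s0 : ℝ} (hs0 : |s0| < κ)
    (hne : translationNumber (rot g s0) ≠ translationNumber g) :
    ¬ {α : ℝ | Irrational α ∧ ∃ s : ℝ, |s| < κ ∧ translationNumber (rot g s) = α}.Countable := by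
  intro hc
  have hcont := cont_tau hg
  have himg := intermediate_value_uIcc (a := (0 : ℝ)) (b := s0) hcont.continuousOn
  simp only [rot_zero] at himg
  set a := translationNumber g
  set b := translationNumber (rot g s0)
  have hsub : uIcc a b ⊆
      {α : ℝ | Irrational α ∧ ∃ s : ℝ, |s| < κ ∧ translationNumber (rot g s) = α} ∪
        Set.range ((↑) : ℚ → ℝ) := by
    intro α hα
    by_cases hir : Irrational α
    · left
      obtain ⟨s, hs, hsα⟩ := himg hα
      refine ⟨hir, s, lt_of_le_of_lt ?_ hs0, hsα⟩
      have := abs_sub_left_of_mem_uIcc hs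
      simpa using this
    · right
      unfold Irrational at hir
      push Not at hir
      exact hir
  have hcount : (uIcc a b).Countable := (hc.union (countable_range _)).mono hsub
  have hlt : min a b < max a b := by
    rcases lt_or_gt_of_ne hne with h | h
    · rw [min_eq_right h.le, max_eq_left h.le]; exact h
    · rw [min_eq_left h.le, max_eq_right h.le]; exact h
  have hunc : ¬ (Icc (min a b) (max a b)).Countable := by
    intro h
    have h1 := Cardinal.mk_Icc_real hlt
    have h2 := Cardinal.mk_le_aleph0_iff.2 (Set.countable_coe_iff.2 h)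
    rw [h1] at h2
    exact absurd h2 (not_le.2 Cardinal.aleph0_lt_continuum)
  exact hunc hcount

/-- preimages of countable sets -/
theorem countable_ex {E : Set ℂ} (hE : E.Countable) : {α : ℝ | ex α ∈ E}.Countable := by
  have : {α : ℝ | ex α ∈ E} = ⋃ l ∈ E, {α : ℝ | ex α = l} := by
    ext α
    simp
  rw [this]
  refine hE.biUnion fun l _ => ?_
  by_cases h : ∃ α0, ex α0 = l
  · obtain ⟨α0, hα0⟩ := h
    refine (countable_range fun m : ℤ => α0 + m).mono ?_
    intro α hα
    rw [mem_setOf_eq, ← hα0] at hα
    obtain ⟨m, hm⟩ := ex_eq_ex hα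
    exact ⟨m, by linarith⟩
  · push Not at h
    have : {α : ℝ | ex α = l} = ∅ := by
      ext α
      simp [h α]
    rw [this]
    exact countable_empty

end Pool.Agent.N102.UF
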