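import Mathlib
import Pool.Agent.N102.UF.Circ

/-!
# The derivative of a circle factor at a periodic point
-/

set_option autoImplicit false

open Filter Set Topology

namespace Pool.Agent.N102.UF

open Pool.Agent.TH290.CL (ex ex_add ex_zero ex_eq_ex norm_ex ex_add_int ex_ne ex_eq)

theorem exists_ex2 {z : ℂ} (hz : ‖z‖ = 1) : ex (Complex.arg z / (2 * Real.pi)) = z := by
  rw [ex_eq]
  have hpi := Real.pi_pos
  have e : 2 * Real.pi * (Complex.arg z / (2 * Real.pi)) = Complex.arg z := by
    field_simp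
  rw [e]
  have := Complex.norm_mul_exp_arg_mul_I z
  rwa [hz, Complex.ofReal_one, one_mul] at this

/-- two lifts which are close are equal -/
theorem lift_eq {x y : ℝ} (h : ex x = ex y) (hlt : |x - y| < 1) : x = y := by
  obtain ⟨m, hm⟩ := ex_eq_ex h
  rw [hm] at hlt
  have : |m| < 1 := by exact_mod_cast hlt
  have : m = 0 := by
    rw [Int.abs_lt_one_iff] at this
    exact this
  rw [this, Int.cast_zero] at hm
  linarith

theorem calc_main {E : Type*} [NormedAddCommGroup E] [NormedSpace ℝ E] {b : E → ℂ} {v0 : E}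
    (hb : DifferentiableAt ℝ b v0) (hb1 : ∀ᶠ v in 𝓝 v0, ‖b v‖ = 1)
    {T : E → E} {D : E →L[ℝ] E} (hT : HasFDerivAt T D v0) (hT0 : T v0 = v0)
    {γ : ℝ → E} {w : E} (hγ : HasDerivAt γ w 0) (hγ0 : γ 0 = v0)
    {f : ℝ → ℝ} (hf : Continuous f) {x0 : ℝ} (hx0 : b v0 = ex x0)
    (h1 : ∀ᶠ v in 𝓝 v0, ∀ x : ℝ, b v = ex x → b (T v) = ex (f x))
    (h2 : ∀ᶠ t in 𝓝 (0 : ℝ), b (γ t) = ex (x0 + t)) :
    ∃ κ : ℝ, HasDerivAt f κ x0 ∧ ∃ lam : E →L[ℝ] ℝ, lam ≠ 0 ∧ ∀ v, lam (D v) = κ * lam v := by
  have hb0 : b v0 ≠ 0 := by rw [hx0]; exact ex_ne _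
  obtain ⟨X, hX⟩ : ∃ X : E → ℝ, X = fun v => x0 + Complex.arg (b v / b v0) / (2 * Real.pi) :=
    ⟨_, rfl⟩
  have hX0 : X v0 = x0 := by
    rw [hX]
    show x0 + Complex.arg (b v0 / b v0) / (2 * Real.pi) = x0
    rw [div_self hb0, Complex.arg_one, zero_div, add_zero]
  have hXex : ∀ᶠ v in 𝓝 v0, ex (X v) = b v := by
    filter_upwards [hb1] with v hv
    rw [hX]
    show ex (x0 + Complex.arg (b v / b v0) / (2 * Real.pi)) = b v
    have h5 : ‖b v / b v0‖ = 1 := by rw [norm_div, hv, hx0, norm_ex, div_one]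
    rw [ex_add, exists_ex2 h5, ← hx0]
    field_simp
  have hXd : DifferentiableAt ℝ X v0 := by
    have hlog : DifferentiableAt ℝ (fun z : ℂ => (Complex.log z).im) 1 := by
      have h3 : ContDiffAt ℝ 1 (fun x => Complex.imCLM (Complex.log x)) 1 :=
        Complex.imCLM.contDiff.contDiffAt.comp _
          ((Complex.contDiffAt_log (by simp [Complex.slitPlane])).restrict_scalars ℝ)
      exact h3.differentiableAt (by norm_num)
    have harg : DifferentiableAt ℝ Complex.arg 1 := by
      refine hlog.congr_of_eventuallyEq (Eventually.of_forall fun z => ?_)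
      exact (Complex.log_im z).symm
    have hq : DifferentiableAt ℝ (fun v => b v / b v0) v0 := by
      simp only [div_eq_mul_inv]
      exact hb.mul_const _
    have h4 : DifferentiableAt ℝ (fun v => Complex.arg (b v / b v0)) v0 := by
      have harg' : DifferentiableAt ℝ Complex.arg (b v0 / b v0) := by
        rw [div_self hb0]
        exact harg
      exact DifferentiableAt.comp v0 (g := Complex.arg) (f := fun v => b v / b v0) harg' hq
    rw [hX]
    simp only [div_eq_mul_inv] at h4 ⊢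
    exact (h4.mul_const _).const_add _
  have hXc : ContinuousAt X v0 := hXd.continuousAt
  set lam := fderiv ℝ X v0 with hlam
  have hXf : HasFDerivAt X lam v0 := hXd.hasFDerivAt
  have hγc : ContinuousAt γ 0 := hγ.continuousAt
  have hTc : ContinuousAt T v0 := hT.continuousAt
  -- along the flow
  have e1 : ∀ᶠ t in 𝓝 (0 : ℝ), X (γ t) = x0 + t := by
    have hc : Tendsto γ (𝓝 0) (𝓝 v0) := by
      have := hγc.tendsto
      rwa [hγ0] at this
    have h3 : ∀ᶠ t in 𝓝 (0 : ℝ), ex (X (γ t)) = b (γ t) := hc.eventually hXex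
    have h4 : ∀ᶠ t in 𝓝 (0 : ℝ), |X (γ t) - (x0 + t)| < 1 := by
      have h5 : Tendsto (fun t => X (γ t) - (x0 + t)) (𝓝 0) (𝓝 0) := by
        have h6 : Tendsto (fun t => X (γ t)) (𝓝 0) (𝓝 x0) := by
          have := hXc.tendsto.comp hc
          rwa [hX0] at this
        have h7 : Tendsto (fun t : ℝ => x0 + t) (𝓝 0) (𝓝 (x0 + 0)) :=
          (continuous_const.add continuous_id).tendsto 0
        have := h6.sub h7
        rwa [add_zero, sub_self] at this
      have := h5.abs
      rw [abs_zero] at this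
      exact this.eventually_lt_const one_pos
    filter_upwards [h2, h3, h4] with t ht2 ht3 ht4
    exact lift_eq (ht3.trans ht2) ht4
  have hlw : lam w = 1 := by
    have h3 : HasDerivAt (fun t => X (γ t)) (lam w) 0 := by
      have h4 : HasFDerivAt X lam (γ 0) := by rw [hγ0]; exact hXf
      exact h4.comp_hasDerivAt 0 hγ
    have h5 : HasDerivAt (fun t : ℝ => x0 + t) 1 0 := (hasDerivAt_id 0).const_add x0
    have h6 : HasDerivAt (fun t => X (γ t)) 1 0 := h5.congr_of_eventuallyEq e1
    exact h3.unique h6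
  -- the map
  obtain ⟨j, hj⟩ : ∃ j : ℤ, f x0 - x0 = j := by
    have h3 := h1.self_of_nhds x0 hx0
    rw [hT0, hx0] at h3
    exact ex_eq_ex h3.symm
  have hTt : Tendsto T (𝓝 v0) (𝓝 v0) := by
    have := hTc.tendsto
    rwa [hT0] at this
  have e2 : ∀ᶠ v in 𝓝 v0, f (X v) = X (T v) + j := by
    have h3 : ∀ᶠ v in 𝓝 v0, ex (X (T v)) = b (T v) := hTt.eventually hXex
    have h4 : ∀ᶠ v in 𝓝 v0, |f (X v) - (X (T v) + j)| < 1 := by
      have h5 : Tendsto (fun v => f (X v) - (X (T v) + j)) (𝓝 v0) (𝓝 0) := by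
        have h6 : Tendsto (fun v => f (X v)) (𝓝 v0) (𝓝 (f x0)) := by
          have := (hf.tendsto (X v0)).comp hXc.tendsto
          rwa [hX0] at this
        have h7 : Tendsto (fun v => X (T v) + (j : ℝ)) (𝓝 v0) (𝓝 (x0 + j)) := by
          have := hXc.tendsto.comp hTt
          rw [hX0] at this
          exact this.add_const _
        have := h6.sub h7
        have e : f x0 - (x0 + j) = 0 := by linarith
        rwa [e] at this
      have := h5.abs
      rw [abs_zero] at this
      exact this.eventually_lt_const one_pos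
    filter_upwards [h1, hXex, h3, h4] with v hv1 hv2 hv3 hv4
    refine lift_eq ?_ hv4
    rw [ex_add_int, hv3]
    exact (hv1 (X v) hv2.symm).symm
  have e3 : ∀ᶠ t in 𝓝 (0 : ℝ), f (x0 + t) = X (T (γ t)) + j := by
    have hc : Tendsto γ (𝓝 0) (𝓝 v0) := by
      have := hγc.tendsto
      rwa [hγ0] at this
    filter_upwards [e1, hc.eventually e2] with t ht1 ht2
    rw [← ht1]
    exact ht2
  have hfd : HasDerivAt f (lam (D w)) x0 := by
    have h3 : HasDerivAt (fun t => X (T (γ t)) + (j : ℝ)) (lam (D w)) 0 := by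
      have h4 : HasFDerivAt T D (γ 0) := by rw [hγ0]; exact hT
      have h5 : HasDerivAt (fun t => T (γ t)) (D w) 0 := h4.comp_hasDerivAt 0 hγ
      have h6 : HasFDerivAt X lam (T (γ 0)) := by rw [hγ0, hT0]; exact hXf
      exact (h6.comp_hasDerivAt 0 h5).add_const _
    have h7 : HasDerivAt (fun t => f (x0 + t)) (lam (D w)) 0 := h3.congr_of_eventuallyEq e3
    have h8 : HasDerivAt (fun x => x - x0) 1 x0 := (hasDerivAt_id x0).sub_const x0
    have h7' : HasDerivAt (fun t => f (x0 + t)) (lam (D w)) (x0 - x0) := by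
      rw [sub_self]; exact h7
    have h9 := HasDerivAt.comp x0 (h₂ := fun t => f (x0 + t)) (h := fun x => x - x0) h7' h8
    rw [mul_one] at h9
    refine h9.congr_of_eventuallyEq (Eventually.of_forall fun x => ?_)
    show f x = f (x0 + (x - x0))
    congr 1
    ring
  refine ⟨_, hfd, lam, ?_, ?_⟩
  · intro h0
    rw [h0] at hlw
    simp at hlw
  · have h3 : HasFDerivAt (fun v => f (X v)) ((lam (D w)) • lam) v0 := by
      have h4 : HasDerivAt f (lam (D w)) (X v0) := by rw [hX0]; exact hfd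
      exact h4.comp_hasFDerivAt v0 hXf
    have h5 : HasFDerivAt (fun v => X (T v) + (j : ℝ)) (lam.comp D) v0 := by
      have h6 : HasFDerivAt X lam (T v0) := by rw [hT0]; exact hXf
      exact (h6.comp v0 hT).add_const _
    have h7 : HasFDerivAt (fun v => f (X v)) (lam.comp D) v0 := h5.congr_of_eventuallyEq e2
    have h8 := h3.unique h7
    intro v
    have := congrArg (fun L : E →L[ℝ] ℝ => L v) h8
    simp only [smul_apply, ContinuousLinearMap.comp_apply, smul_eq_mul] at this
    exact this.symm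

end Pool.Agent.N102.UF
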