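import Mathlib
import Pool.Agent.TH80.OMS.Defs

/-!
# The nonwandering set in a trapping region
-/

set_option autoImplicit false
set_option linter.unusedSectionVars false

open Filter Set Topology

universe u

namespace Pool.Agent.N102.UF

open Pool.Agent.TH80.OMS

variable {N : Type u} [TopologicalSpace N] [T2Space N] [CompactSpace N] {G : N → N} {A : Set N}

theorem trap_iter (hA : ∀ y ∈ closure A, G y ∈ A) (k : ℕ) :
    ∀ y ∈ A, G^[k] y ∈ A := by
  induction k with
  | zero => exact fun y hy => hy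
  | succ k ih =>
    intro y hy
    rw [Function.iterate_succ_apply]
    exact ih _ (hA _ (subset_closure hy))

/-- nonwandering points of the closure of a trapping region lie in its image -/
theorem trap_omega (hG : Continuous G) (hAo : IsOpen A) (hA : ∀ y ∈ closure A, G y ∈ A)
    {y : N} (hy : y ∈ closure A) (hyO : y ∈ Omega G) : y ∈ G '' closure A := by
  by_contra hcon
  have hcl : IsClosed (G '' closure A) := (isClosed_closure.isCompact.image hG).isClosed
  have hGy : G y ≠ y := fun h => hcon ⟨y, hy, h⟩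
  obtain ⟨W1, W2, hW1, hW2, hGy1, hy2, hdis⟩ := t2_separation hGy
  have hyA : G y ∈ A := hA y hy
  set W : Set N := ((G '' closure A)ᶜ ∩ W2) ∩ (G ⁻¹' (A ∩ W1)) with hW
  have hWo : IsOpen W := (hcl.isOpen_compl.inter hW2).inter ((hAo.inter hW1).preimage hG)
  obtain ⟨k, hk, z, hz, hkz⟩ := hyO W hWo ⟨⟨hcon, hy2⟩, hyA, hGy1⟩
  rcases Nat.eq_or_lt_of_le hk with h1 | h1
  · rw [← h1] at hkz
    exact Set.disjoint_left.1 hdis hz.2.2 hkz.1.2
  · obtain ⟨j, rfl⟩ : ∃ j, k = j + 2 := ⟨k - 2, by omega⟩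
    have h2 : G^[j + 2] z = G (G^[j] (G z)) := by
      rw [show j + 2 = (j + 1) + 1 by ring, Function.iterate_succ_apply',
        Function.iterate_succ_apply]
    have h3 : G^[j] (G z) ∈ A := trap_iter hA j _ hz.2.1
    exact hkz.1.1 ⟨_, subset_closure h3, h2.symm⟩

theorem trap_omega_mem (hG : Continuous G) (hAo : IsOpen A) (hA : ∀ y ∈ closure A, G y ∈ A)
    {y : N} (hy : y ∈ closure A) (hyO : y ∈ Omega G) : y ∈ A := by
  obtain ⟨z, hz, rfl⟩ := trap_omega hG hAo hA hy hyO
  exact hA z hz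

theorem omega_inter_closed (hG : Continuous G) (hAo : IsOpen A) (hA : ∀ y ∈ closure A, G y ∈ A)
    (hcl : IsClosed (Omega G)) : IsClosed (Omega G ∩ A) := by
  have : Omega G ∩ A = Omega G ∩ closure A := by
    ext y
    exact ⟨fun h => ⟨h.1, subset_closure h.2⟩, fun h => ⟨h.1, trap_omega_mem hG hAo hA h.2 h.1⟩⟩
  rw [this]
  exact hcl.inter isClosed_closure

/-- a nonempty trapping region contains nonwandering points -/
theorem omega_inter_nonempty (hG : Continuous G) (hAo : IsOpen A)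
    (hA : ∀ y ∈ closure A, G y ∈ A) (hne : A.Nonempty) : (Omega G ∩ A).Nonempty := by
  obtain ⟨y, hy⟩ := hne
  obtain ⟨z, -, hz⟩ := isCompact_univ.exists_mapClusterPt (f := atTop)
    (u := fun k : ℕ => G^[k] y) (by simp)
  have hz' : ∀ W : Set N, W ∈ 𝓝 z → ∃ᶠ k : ℕ in atTop, G^[k] y ∈ W :=
    fun W hW => hz.frequently hW
  have hzc : z ∈ closure A := by
    rw [mem_closure_iff_nhds]
    intro W hW
    obtain ⟨k, hk⟩ := (hz' W hW).exists
    exact ⟨_, hk, trap_iter hA k y hy⟩
  have hzO : z ∈ Omega G := by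
    intro W hW hzW
    have hf := hz' W (hW.mem_nhds hzW)
    obtain ⟨k1, hk1⟩ := hf.exists
    obtain ⟨k2, hk2, hk2'⟩ := (frequently_atTop.1 hf) (k1 + 1)
    refine ⟨k2 - k1, by omega, G^[k1] y, hk1, ?_⟩
    rw [← Function.iterate_add_apply, Nat.sub_add_cancel (by omega)]
    exact hk2'
  exact ⟨z, hzO, trap_omega_mem hG hAo hA hzc hzO⟩

end Pool.Agent.N102.UF
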