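import Pool.Agent.N102.UF.Sep
import Pool.Agent.N102.UF.Circ
import Pool.Agent.N102.UF.Trap
import Pool.Agent.TH80.OMS.Main

/-!
# Continuous eigenvalues of `Ω`-stable maps
-/

set_option autoImplicit false
set_option linter.unusedSectionVars false

open Filter Set Topology

universe u

namespace Pool.Agent.N102.UF

open Pool.Agent.TH80.OMS CircleDeg1Lift
open Pool.Agent.TH290.CL (ex ex_add ex_zero ex_eq_ex norm_ex ex_add_int ex_ne ex_eq)

section trans

variable {N : Type u} [TopologicalSpace N] [T2Space N] [CompactSpace N]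

/-- `λ` is a continuous eigenvalue of `G` on a nonempty part `C` of the nonwandering set which is
invariant and relatively open and closed: `u : C → S¹` is continuous and `u ∘ G = λ u`. -/
structure OmegaEig (G : N → N) (lam : ℂ) (C : Set N) (u : N → ℂ) : Prop where
  sub : C ⊆ Omega G
  ne : C.Nonempty
  closed : IsClosed C
  closed' : IsClosed (Omega G \ C)
  inv : ∀ y ∈ C, G y ∈ C
  cont : ContinuousOn u C
  one : ∀ y ∈ C, ‖u y‖ = 1
  eig : ∀ y ∈ C, u (G y) = lam * u y

open Classical in
theorem OmegaEig.transfer {F G : N → N} (hF : Continuous F) {lam : ℂ} {C : Set N} {u : N → ℂ}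
    (hE : OmegaEig G lam C u) (h : Omega F ≃ₜ Omega G)
    (hh : ∀ x y : Omega F, F x = y → G (h x) = h y) :
    EigData (Omega F) (fun x => ⟨F x, omega_maps hF x.2⟩) lam {x | (h x : N) ∈ C}
      (fun x => if (h x : N) ∈ C then u (h x) else 0) := by
  have hG : ∀ x : Omega F, (h ⟨F x, omega_maps hF x.2⟩ : N) = G (h x) :=
    fun x => (hh x ⟨F x, omega_maps hF x.2⟩ rfl).symm
  have hval : Continuous fun x : Omega F => (h x : N) := continuous_subtype_val.comp h.continuous
  refine
    { ne := ?_
      inv := ?_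
      cont := ?_
      off := ?_
      one := ?_
      eig := ?_ }
  · obtain ⟨y, hy⟩ := hE.ne
    refine ⟨h.symm ⟨y, hE.sub hy⟩, ?_⟩
    show (h (h.symm ⟨y, hE.sub hy⟩) : N) ∈ C
    rw [h.apply_symm_apply]
    exact hy
  · intro x hx
    show (h ⟨F x, omega_maps hF x.2⟩ : N) ∈ C
    rw [hG]
    exact hE.inv _ hx
  · rw [continuous_iff_continuousAt]
    intro x
    by_cases hx : (h x : N) ∈ C
    · have hev : ∀ᶠ z in 𝓝 x, (h z : N) ∈ C := by
        have h1 : ∀ᶠ z in 𝓝 x, (h z : N) ∈ (Omega G \ C)ᶜ :=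
          hval.continuousAt (hE.closed'.isOpen_compl.mem_nhds fun h2 => h2.2 hx)
        filter_upwards [h1] with z hz
        by_contra hzC
        exact hz ⟨(h z).2, hzC⟩
      have h2 : Tendsto (fun z : Omega F => (h z : N)) (𝓝 x) (𝓝[C] (h x : N)) :=
        tendsto_nhdsWithin_iff.2 ⟨hval.continuousAt, hev⟩
      have h3 : Tendsto (fun z : Omega F => u (h z)) (𝓝 x) (𝓝 (u (h x))) :=
        (hE.cont _ hx).tendsto.comp h2
      have h4 : (fun z : Omega F => if (h z : N) ∈ C then u (h z) else 0) =ᶠ[𝓝 x]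
          fun z => u (h z) := by
        filter_upwards [hev] with z hz
        exact if_pos hz
      exact (ContinuousAt.congr (f := fun z : Omega F => u (h z)) h3 h4.symm)
    · have hev : ∀ᶠ z in 𝓝 x, (h z : N) ∈ Cᶜ :=
        hval.continuousAt (hE.closed.isOpen_compl.mem_nhds hx)
      have h4 : (fun z : Omega F => if (h z : N) ∈ C then u (h z) else 0) =ᶠ[𝓝 x]
          fun _ => (0 : ℂ) := by
        filter_upwards [hev] with z hz
        exact if_neg hz
      exact continuousAt_const.congr h4.symm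
  · intro x hx
    exact if_neg hx
  · intro x hx
    have hx2 : (h x : N) ∈ C := hx
    show ‖(if (h x : N) ∈ C then u (h x) else 0)‖ = 1
    rw [if_pos hx2]
    exact hE.one _ hx
  · intro x hx
    have hx2 : (h x : N) ∈ C := hx
    have hx' : (h ⟨F x, omega_maps hF x.2⟩ : N) ∈ C := by
      rw [hG]
      exact hE.inv _ hx2
    show (if (h ⟨F x, omega_maps hF x.2⟩ : N) ∈ C then
      u (h ⟨F x, omega_maps hF x.2⟩) else 0) = lam * (if (h x : N) ∈ C then u (h x) else 0)
    rw [if_pos hx', if_pos hx2, hG]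
    exact hE.eig _ hx

theorem omega_closed (F : N → N) : IsClosed (Omega F) := by
  rw [← isOpen_compl_iff, isOpen_iff_mem_nhds]
  intro x hx
  have : ∃ W : Set N, IsOpen W ∧ x ∈ W ∧ ∀ k : ℕ, 1 ≤ k → ∀ y ∈ W, F^[k] y ∉ W := by
    by_contra hcon
    push Not at hcon
    apply hx
    intro W hW hxW
    obtain ⟨k, hk, y, hy, hky⟩ := hcon W hW hxW
    exact ⟨k, hk, y, hy, hky⟩
  obtain ⟨W, hW, hxW, hno⟩ := this
  refine mem_of_superset (hW.mem_nhds hxW) ?_
  intro y hy hyO
  obtain ⟨k, hk, z, hz, hkz⟩ := hyO W hW hy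
  exact hno k hk z hz hkz

/-- The set of all continuous eigenvalues of all maps which are `Ω`-conjugate to `F` is countable. -/
theorem countable_conj [SecondCountableTopology N] {F : N → N} (hF : Continuous F) :
    {lam : ℂ | ∃ (G : N → N) (C : Set N) (u : N → ℂ), OmegaConj F G ∧
      OmegaEig G lam C u}.Countable := by
  classical
  have : CompactSpace (Omega F) := isCompact_iff_compactSpace.1 (omega_closed F).isCompact
  refine (countable_eig (X := Omega F) (fun x => ⟨F x, omega_maps hF x.2⟩)).mono ?_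
  rintro lam ⟨G, C, u, ⟨h, hh⟩, hE⟩
  exact ⟨_, _, hE.transfer hF h hh⟩

end trans

/-- `a ∘ G = f ∘ a` on `A` -/
def Covers {N : Type u} (G : N → N) (A : Set N) (a : N → ℂ) (f : ℝ → ℝ) : Prop :=
  ∀ y ∈ A, ∀ x : ℝ, a y = ex x → a (G y) = ex (f x)

theorem exists_ex' {z : ℂ} (hz : ‖z‖ = 1) : ex (Complex.arg z / (2 * Real.pi)) = z := by
  rw [ex_eq]
  have hpi := Real.pi_pos
  have e : 2 * Real.pi * (Complex.arg z / (2 * Real.pi)) = Complex.arg z := by
    field_simp
  rw [e]
  have := Complex.norm_mul_exp_arg_mul_I z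
  rwa [hz, Complex.ofReal_one, one_mul] at this

theorem ex_add_int' {t : ℝ → ℝ} (ht : ∀ x, t (x + 1) = t x + 1) (x : ℝ) (m : ℤ) :
    t (x + m) = t x + m := by
  induction m using Int.induction_on with
  | zero => simp
  | succ i ih =>
    have : x + ((i + 1 : ℤ) : ℝ) = (x + (i : ℤ)) + 1 := by push_cast; ring
    rw [this, ht, ih]; push_cast; ring
  | pred i ih =>
    have h := ht (x + ((-(i : ℤ) - 1 : ℤ) : ℝ))
    have : x + ((-(i : ℤ) - 1 : ℤ) : ℝ) + 1 = x + ((-(i : ℤ) : ℤ) : ℝ) := by push_cast; ring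
    rw [this, ih] at h
    push_cast at h ⊢
    linarith

section eig

variable {N : Type u} [TopologicalSpace N] [T2Space N] [CompactSpace N]

/-- A circle factor with irrational rotation number gives a continuous eigenfunction. -/
theorem eig_of_factor {G : N → N} (hG : Continuous G) {A : Set N} (hAo : IsOpen A)
    (hA : ∀ y ∈ closure A, G y ∈ A) (hne : A.Nonempty) {a : N → ℂ} (ha : ContinuousOn a A)
    (ha1 : ∀ y ∈ A, ‖a y‖ = 1) {f : CircleDeg1Lift} (hf : Continuous f) (hm : StrictMono f)
    (hirr : Irrational (translationNumber f)) (hcov : Covers G A a f) :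
    ∃ u : N → ℂ, OmegaEig G (ex (translationNumber f)) (Omega G ∩ A) u := by
  obtain ⟨t, htc, ht1, htf⟩ := semi f hf hm hirr
  have key : ∀ y ∈ A, ∀ x : ℝ, a y = ex x →
      ex (t (Complex.arg (a y) / (2 * Real.pi))) = ex (t x) := by
    intro y hy x hx
    have h1 := exists_ex' (ha1 y hy)
    rw [hx] at h1
    obtain ⟨m, hm⟩ := ex_eq_ex h1
    have h2 : Complex.arg (ex x) / (2 * Real.pi) = x + m := by linarith
    rw [hx, h2, ex_add_int' ht1, ex_add_int]
  refine ⟨fun y => ex (t (Complex.arg (a y) / (2 * Real.pi))), ?_⟩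
  have hOc := omega_closed G
  refine
    { sub := inter_subset_left
      ne := omega_inter_nonempty hG hAo hA hne
      closed := omega_inter_closed hG hAo hA hOc
      closed' := ?_
      inv := ?_
      cont := ?_
      one := ?_
      eig := ?_ }
  · have : Omega G \ (Omega G ∩ A) = Omega G ∩ Aᶜ := by
      ext y
      constructor
      · rintro ⟨h1, h2⟩
        exact ⟨h1, fun h3 => h2 ⟨h1, h3⟩⟩
      · rintro ⟨h1, h2⟩
        exact ⟨h1, fun h3 => h2 h3.2⟩
    rw [this]
    exact hOc.inter hAo.isClosed_compl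
  · rintro y ⟨hy1, hy2⟩
    exact ⟨omega_maps hG hy1, hA y (subset_closure hy2)⟩
  · rintro y ⟨hy1, hy2⟩
    set x0 : ℝ := Complex.arg (a y) / (2 * Real.pi) with hx0
    have hx0e : ex x0 = a y := exists_ex' (ha1 y hy2)
    have hay : a y ≠ 0 := by
      intro h0
      have := ha1 y hy2
      rw [h0, norm_zero] at this
      exact zero_ne_one this
    have hcontA : ContinuousWithinAt a (Omega G ∩ A) y := (ha y hy2).mono inter_subset_right
    have h1 : ContinuousWithinAt (fun z => Complex.arg (a z / a y)) (Omega G ∩ A) y := by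
      have h2 : ContinuousWithinAt (fun z => a z / a y) (Omega G ∩ A) y := hcontA.div_const _
      have h3 : ContinuousAt Complex.arg (a y / a y) := by
        rw [div_self hay]
        exact Complex.continuousAt_arg (by simp [Complex.slitPlane])
      exact ContinuousAt.comp_continuousWithinAt (g := Complex.arg) h3 h2
    have h4 : ContinuousWithinAt
        (fun z => ex (t (x0 + Complex.arg (a z / a y) / (2 * Real.pi)))) (Omega G ∩ A) y := by
      have hexc : Continuous ex := by
        have : (ex : ℝ → ℂ) = fun x : ℝ => Complex.exp (((2 * Real.pi * x : ℝ) : ℂ) * Complex.I) := by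
          funext x
          exact ex_eq x
        rw [this]
        fun_prop
      exact (hexc.comp htc).continuousAt.comp_continuousWithinAt
        (continuousWithinAt_const.add (h1.div_const _))
    refine h4.congr (fun z hz => ?_) ?_
    · have h5 : ‖a z / a y‖ = 1 := by rw [norm_div, ha1 z hz.2, ha1 y hy2, div_one]
      have h6 : a z = ex (x0 + Complex.arg (a z / a y) / (2 * Real.pi)) := by
        rw [ex_add, exists_ex' h5, hx0e]
        field_simp
      exact key z hz.2 _ h6
    · have h6 : a y = ex (x0 + Complex.arg (a y / a y) / (2 * Real.pi)) := by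
        rw [div_self hay, Complex.arg_one, zero_div, add_zero, hx0e]
      exact key y hy2 _ h6
  · intro y _
    exact norm_ex _
  · rintro y ⟨hy1, hy2⟩
    obtain ⟨x, hx⟩ : ∃ x : ℝ, a y = ex x := ⟨_, (exists_ex' (ha1 y hy2)).symm⟩
    have h1 := hcov y hy2 x hx
    have h2 := key y hy2 x hx
    have h3 := key _ (hA y (subset_closure hy2)) _ h1
    show ex (t (Complex.arg (a (G y)) / (2 * Real.pi))) =
      ex (translationNumber f) * ex (t (Complex.arg (a y) / (2 * Real.pi)))
    rw [h3, h2, htf, ex_add]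

end eig

end Pool.Agent.N102.UF
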