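import Pool.Agent.N102.UF.Main
import Pool.Agent.N102.UF.Calc
import Pool.Agent.Y504.CO.Gen

/-!
# Periodic points lie over hyperbolic periodic points of the circle factor
-/

set_option autoImplicit false
set_option linter.unusedSectionVars false

open scoped Manifold ContDiff Topology
open Filter Set

universe u

namespace Pool.Agent.N102.UF

open Pool.Agent.H718R2.G Pool.Agent.W564.SC Pool.Agent.TH80.OMS Pool.Agent.TH80.CLX
open Pool.Agent.TH290.CL CircleDeg1Lift

section lin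

/-- a left eigenvector gives a root of the characteristic polynomial -/
theorem root_of_left {E : Type*} [NormedAddCommGroup E] [NormedSpace ℝ E] [FiniteDimensional ℝ E]
    (D : E →L[ℝ] E) (lam : E →L[ℝ] ℝ) (hne : lam ≠ 0) (κ : ℝ) (h : ∀ v, lam (D v) = κ * lam v) :
    ((LinearMap.charpoly (D : E →ₗ[ℝ] E)).map (algebraMap ℝ ℂ)).IsRoot (κ : ℂ) := by
  obtain ⟨T, hT⟩ : ∃ T : Module.End ℝ E, T = (D : E →ₗ[ℝ] E) := ⟨_, rfl⟩
  have h1 : T.HasEigenvalue κ := by
    by_contra hcon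
    have hinj : Function.Injective (T - κ • (1 : Module.End ℝ E)) := by
      rw [injective_iff_map_eq_zero]
      intro v hv
      by_contra hv0
      apply hcon
      refine Module.End.hasEigenvalue_of_hasEigenvector (x := v) ⟨?_, hv0⟩
      rw [Module.End.mem_eigenspace_iff]
      simp only [LinearMap.sub_apply, LinearMap.smul_apply, Module.End.one_apply] at hv
      exact sub_eq_zero.1 hv
    have hsurj := LinearMap.surjective_of_injective hinj
    apply hne
    ext v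
    obtain ⟨u, hu⟩ := hsurj v
    rw [← hu]
    simp only [LinearMap.sub_apply, LinearMap.smul_apply, Module.End.one_apply, map_sub, map_smul,
      smul_eq_mul, hT, ContinuousLinearMap.coe_coe]
    rw [h u, sub_self]
    simp
  have h2 := (Module.End.hasEigenvalue_iff_isRoot_charpoly T κ).1 h1
  rw [hT] at h2
  exact h2.map

end lin

variable {n : ℕ} {N : Type u} [TopologicalSpace N] [ChartedSpace (V n) N] [IsManifold (𝓡 n) ∞ N]

theorem CircleFactor.iter {F : N → N} {A : Set N} {ψ : ℝ → N → N} {a : N → ℂ}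
    {g : CircleDeg1Lift} (h : CircleFactor n N F A ψ a g) (m : ℕ) :
    ∀ y ∈ A, F^[m] y ∈ A ∧ ∀ x : ℝ, a y = ex x → a (F^[m] y) = ex (g^[m] x) := by
  induction m with
  | zero => exact fun y hy => ⟨hy, fun x hx => hx⟩
  | succ m ih =>
    intro y hy
    obtain ⟨h1, h2⟩ := ih y hy
    rw [Function.iterate_succ_apply']
    refine ⟨h.trap _ (subset_closure h1), fun x hx => ?_⟩
    rw [h.fac _ h1 _ (h2 x hx), Function.iterate_succ_apply']

variable [T2Space N] [CompactSpace N]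

/-- Over a periodic point of an `Ω`-stable diffeomorphism the circle factor is differentiable and
hyperbolic. -/
theorem hyperbolic (r : ℕ∞) (hr : 1 ≤ r) (F : DiffM n N r) (hF : OmegaStable n N r F) {A : Set N}
    {ψ : ℝ → N → N} {a : N → ℂ} {g : CircleDeg1Lift} (h : CircleFactor n N F A ψ a g)
    (ha : ContMDiffOn (𝓡 n) 𝓘(ℝ, ℂ) 1 a A) (p : N) (hp : p ∈ A) (m : ℕ) (hm : 1 ≤ m)
    (hpm : F^[m] p = p) (x0 : ℝ) (hx0 : a p = ex x0) :
    ∃ κ : ℝ, HasDerivAt g^[m] κ x0 ∧ |κ| ≠ 1 := by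
  have hr1 : (1 : WithTop ℕ∞) ≤ (r : WithTop ℕ∞) := by exact_mod_cast hr
  have hhyp := Pool.Agent.Y504.CO.Gen.stable_hyp hr hF p ⟨m, hm, hpm⟩
  set φ := chartAt (V n) p with hφd
  have hφ : φ ∈ IsManifold.maximalAtlas (𝓡 n) ∞ N := IsManifold.chart_mem_maximalAtlas p
  have hps : p ∈ φ.source := mem_chart_source _ _
  obtain ⟨D, hD, hroot⟩ := hhyp.2 m hm hpm φ hφ hps
  have hφ1 : φ ∈ IsManifold.maximalAtlas (𝓡 n) 1 N :=
    IsManifold.maximalAtlas_subset_of_le (by exact_mod_cast le_top) hφ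
  -- the function `b`
  have hsymm : ContMDiffAt (𝓡 n) (𝓡 n) 1 φ.symm (φ p) :=
    contMDiffAt_symm_of_mem_maximalAtlas hφ1 (φ.map_source hps)
  have hsp : φ.symm (φ p) = p := φ.left_inv hps
  have haA : ContMDiffAt (𝓡 n) 𝓘(ℝ, ℂ) 1 a (φ.symm (φ p)) := by
    rw [hsp]
    exact ha.contMDiffAt (h.isOpen.mem_nhds hp)
  have hb : DifferentiableAt ℝ (fun v => a (φ.symm v)) (φ p) := by
    have h1 : ContMDiffAt (𝓡 n) 𝓘(ℝ, ℂ) 1 (fun v => a (φ.symm v)) (φ p) :=
      haA.comp (φ p) hsymm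
    exact (contMDiffAt_iff_contDiffAt.1 h1).differentiableAt (by norm_num)
  have hcs : ContinuousAt φ.symm (φ p) := hsymm.continuousAt
  have hevA : ∀ᶠ v in 𝓝 (φ p), φ.symm v ∈ A := by
    have h1 : Tendsto φ.symm (𝓝 (φ p)) (𝓝 p) := by
      have := hcs.tendsto
      rwa [hsp] at this
    exact h1 (h.isOpen.mem_nhds hp)
  -- the flow line
  have hγN : ContMDiff 𝓘(ℝ, ℝ) (𝓡 n) ∞ (fun t => ψ t p) := by
    have h1 : ContMDiff 𝓘(ℝ, ℝ) (𝓘(ℝ, ℝ).prod (𝓡 n)) ∞ (fun t : ℝ => (t, p)) :=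
      contMDiff_id.prodMk contMDiff_const
    exact ContMDiff.comp (g := fun q : ℝ × N => ψ q.1 q.2) (f := fun t : ℝ => (t, p))
      h.flow.smooth h1
  have hγ0 : ψ 0 p = p := h.flow.zero p
  have hγ : DifferentiableAt ℝ (fun t => φ (ψ t p)) 0 := by
    have h1 : ContMDiffAt (𝓡 n) (𝓡 n) ∞ φ (ψ 0 p) := by
      rw [hγ0]
      exact contMDiffAt_of_mem_maximalAtlas hφ hps
    have h2 : ContMDiffAt 𝓘(ℝ, ℝ) (𝓡 n) ∞ (fun t => φ (ψ t p)) 0 :=
      ContMDiffAt.comp (g := φ) (f := fun t => ψ t p) 0 h1 hγN.contMDiffAt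
    have h3 : ContDiffAt ℝ ∞ (fun t => φ (ψ t p)) 0 := contMDiffAt_iff_contDiffAt.1 h2
    exact h3.differentiableAt (by norm_num)
  have hγs : ∀ᶠ t in 𝓝 (0 : ℝ), ψ t p ∈ φ.source := by
    refine hγN.continuous.continuousAt (φ.open_source.mem_nhds ?_)
    rw [hγ0]
    exact hps
  have hT0 : φ (F^[m] (φ.symm (φ p))) = φ p := by rw [hsp, hpm]
  have hFm : Continuous F^[m] := F.continuous.iterate m
  have hevS : ∀ᶠ v in 𝓝 (φ p), F^[m] (φ.symm v) ∈ φ.source := by
    have h1 : Tendsto φ.symm (𝓝 (φ p)) (𝓝 p) := by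
      have := hcs.tendsto
      rwa [hsp] at this
    have h2 : Tendsto (fun v => F^[m] (φ.symm v)) (𝓝 (φ p)) (𝓝 p) := by
      have := (hFm.tendsto p).comp h1
      rwa [hpm] at this
    exact h2 (φ.open_source.mem_nhds hps)
  obtain ⟨κ, hκ, lam, hlam, hlamD⟩ := calc_main (b := fun v => a (φ.symm v)) (v0 := φ p)
    (T := fun v => φ (F^[m] (φ.symm v))) (γ := fun t => φ (ψ t p)) (f := g^[m]) (x0 := x0)
    hb
    (by
      filter_upwards [hevA] with v hv
      exact h.norm _ hv)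
    hD hT0 hγ.hasDerivAt (by show φ (ψ 0 p) = φ p; rw [hγ0])
    (h.cont.iterate m)
    (by show a (φ.symm (φ p)) = ex x0; rw [hsp, hx0])
    (by
      filter_upwards [hevA, hevS] with v hv hv2 x hx
      show a (φ.symm (φ (F^[m] (φ.symm v)))) = _
      rw [φ.left_inv hv2]
      exact (h.iter m _ hv).2 x hx)
    (by
      obtain ⟨ε, hε, hequi⟩ := h.equi
      have hm' : ∃ q ∈ A, F q = p := by
        refine ⟨F^[m - 1] p, (h.iter (m - 1) p hp).1, ?_⟩
        rw [← Function.iterate_succ_apply' F, show (m - 1).succ = m by omega, hpm]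
      obtain ⟨q, hq, hqp⟩ := hm'
      have hsmall : ∀ᶠ t in 𝓝 (0 : ℝ), |t| < ε := by
        have := (continuous_abs.tendsto (0 : ℝ))
        rw [abs_zero] at this
        exact this.eventually_lt_const hε
      filter_upwards [hγs, hsmall] with t ht1 ht2
      show a (φ.symm (φ (ψ t p))) = _
      rw [φ.left_inv ht1]
      have := hequi q (subset_closure hq) t ht2
      rw [hqp, hx0] at this
      rw [this, ← ex_add, add_comm])
  refine ⟨κ, hκ, ?_⟩
  have := hroot (κ : ℂ) (root_of_left D lam hlam κ hlamD)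
  rwa [Complex.norm_real, Real.norm_eq_abs] at this

end Pool.Agent.N102.UF
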