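import Pool.Agent.N102.UF.Circ
import Pool.Agent.N102.CF.T3

/-!
# Irrational rotation numbers are not locked
-/

set_option autoImplicit false

open Filter Set Topology

namespace Pool.Agent.N102.UF

open CircleDeg1Lift

theorem rot_pow_ge (g : CircleDeg1Lift) {s : ℝ} (hs : 0 ≤ s) (n : ℕ) (x : ℝ) :
    (g ^ n) x ≤ (rot g s ^ n) x ∧ (g ^ (n + 1)) x + s ≤ (rot g s ^ (n + 1)) x := by
  have key : (g ^ n) x ≤ (rot g s ^ n) x := by
    induction n with
    | zero => simp
    | succ n ih =>
      rw [pow_succ', mul_apply, pow_succ', mul_apply, rot_apply]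
      have := g.monotone ih
      linarith
  refine ⟨key, ?_⟩
  rw [pow_succ', mul_apply, pow_succ', mul_apply, rot_apply]
  have := g.monotone key
  linarith

theorem lt_of_irrational {g : CircleDeg1Lift} (hg : Continuous g)
    (hα : Irrational (translationNumber g)) {s : ℝ} (hs : 0 < s) :
    translationNumber g < translationNumber (rot g s) := by
  obtain ⟨n, m, hn, h1, h2⟩ := Pool.Agent.N102.CF.T3.approx (translationNumber g) s hα hs
  obtain ⟨x, hx⟩ := exists_eq_add_translationNumber (g ^ n) (continuous_pow _ hg n)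
  rw [translationNumber_pow] at hx
  obtain ⟨k, rfl⟩ : ∃ k, n = k + 1 := ⟨n - 1, by omega⟩
  have h3 := (rot_pow_ge g hs.le k x).2
  have h4 : x + m ≤ (rot g s ^ (k + 1)) x := by
    rw [hx] at h3
    linarith
  have h5 := le_translationNumber_of_add_int_le _ h4
  rw [translationNumber_pow] at h5
  have hn0 : (0 : ℝ) < ((k + 1 : ℕ) : ℝ) := by exact_mod_cast Nat.succ_pos k
  by_contra hcon
  push Not at hcon
  have : ((k + 1 : ℕ) : ℝ) * translationNumber (rot g s) ≤
      ((k + 1 : ℕ) : ℝ) * translationNumber g := mul_le_mul_of_nonneg_left hcon hn0.le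
  linarith

end Pool.Agent.N102.UF
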