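import Mathlib

/-!
# Lifts of circle homeomorphisms with hyperbolic periodic points
-/

set_option autoImplicit false

open Filter Set Topology

namespace Pool.Agent.N102.UF

open CircleDeg1Lift

theorem pow_eq (g : CircleDeg1Lift) (m : ℕ) (x : ℝ) : (g ^ m) x = g^[m] x := by
  rw [coe_pow]

theorem iter_mul_int (g : CircleDeg1Lift) {m : ℕ} {j : ℤ} {x : ℝ} (h : g^[m] x = x + j) (k : ℕ) :
    g^[m * k] x = x + k * j := by
  induction k with
  | zero => simp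
  | succ k ih =>
    have h1 : g^[m * (k + 1)] x = g^[m * k] (g^[m] x) := by
      rw [← Function.iterate_add_apply]
      congr 1
    rw [h1, h, ← pow_eq, map_add_int, pow_eq, ih]
    push_cast
    ring

/-- all periodic points have the period of one of them -/
theorem same_period (g : CircleDeg1Lift) {m m1 : ℕ} (hm : 1 ≤ m) (_hm1 : 1 ≤ m1) {j j1 : ℤ}
    {x x1 : ℝ} (h : g^[m] x = x + j) (h1 : g^[m1] x1 = x1 + j1) : g^[m1] x = x + j1 := by
  have e1 : g^[m * m1] x = x + m1 * j := iter_mul_int g h m1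
  have e2 : g^[m1 * m] x1 = x1 + m * j1 := iter_mul_int g h1 m
  have e1' : (g ^ (m * m1)) x = x + ((m1 * j : ℤ) : ℝ) := by
    rw [pow_eq, e1]; push_cast; ring
  have e2' : (g ^ (m * m1)) x1 = x1 + ((m * j1 : ℤ) : ℝ) := by
    rw [pow_eq, mul_comm m m1, e2]; push_cast; ring
  have t1 := translationNumber_of_eq_add_int _ e1'
  have t2 := translationNumber_of_eq_add_int _ e2'
  have e3 : (m1 * j : ℤ) = m * j1 := by
    have := t1.symm.trans t2
    exact_mod_cast this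
  have h4 : (g ^ m1)^[m] x = x + m * j1 := by
    rw [← coe_pow, ← pow_mul, mul_comm m1 m, e1']
    have : ((m1 * j : ℤ) : ℝ) = ((m * j1 : ℤ) : ℝ) := by rw [e3]
    rw [this]
    push_cast
    ring
  have h5 := ((g ^ m1).iterate_pos_eq_iff (x := x) (m := j1) (n := m) (by omega)).1 h4
  rw [pow_eq] at h5
  exact h5

theorem finite_periodic (g : CircleDeg1Lift) (hg : Continuous g)
    (hyp : ∀ x : ℝ, (∃ (m : ℕ) (j : ℤ), 1 ≤ m ∧ g^[m] x = x + j) →
      ∃ (m : ℕ) (j : ℤ), 1 ≤ m ∧ g^[m] x = x + j ∧ ∃ κ : ℝ, HasDerivAt g^[m] κ x ∧ |κ| ≠ 1) :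
    {x : ℝ | 0 ≤ x ∧ x < 1 ∧ ∃ (m : ℕ) (j : ℤ), 1 ≤ m ∧ g^[m] x = x + j}.Finite := by
  by_cases hex : ∃ (x1 : ℝ) (m1 : ℕ) (j1 : ℤ), 1 ≤ m1 ∧ g^[m1] x1 = x1 + j1
  swap
  · have : {x : ℝ | 0 ≤ x ∧ x < 1 ∧ ∃ (m : ℕ) (j : ℤ), 1 ≤ m ∧ g^[m] x = x + j} = ∅ := by
      ext x
      simp only [mem_setOf_eq, mem_empty_iff_false, iff_false]
      rintro ⟨-, -, m, j, hm, h⟩
      exact hex ⟨x, m, j, hm, h⟩
    rw [this]
    exact finite_empty
  obtain ⟨x1, m1, j1, hm1, hx1⟩ := hex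
  set S : Set ℝ := {x : ℝ | 0 ≤ x ∧ x < 1 ∧ ∃ (m : ℕ) (j : ℤ), 1 ≤ m ∧ g^[m] x = x + j} with hS
  have hS1 : ∀ x ∈ S, g^[m1] x = x + j1 := by
    rintro x ⟨-, -, m, j, hm, h⟩
    exact same_period g hm hm1 h hx1
  by_contra hinf
  obtain ⟨z, hz, hacc⟩ := Set.Infinite.exists_accPt_of_subset_isCompact (s := S)
    (K := Icc (0 : ℝ) 1) hinf isCompact_Icc (fun x hx => ⟨hx.1, hx.2.1.le⟩)
  have hcont : Continuous g^[m1] := hg.iterate m1
  have hz1 : g^[m1] z = z + j1 := by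
    have hcl : IsClosed {x : ℝ | g^[m1] x = x + j1} :=
      isClosed_eq hcont (continuous_id.add continuous_const)
    have hzc : z ∈ closure S := by
      rw [mem_closure_iff_clusterPt]
      exact hacc.clusterPt
    exact hcl.closure_subset_iff.2 (fun x hx => hS1 x hx) hzc
  obtain ⟨m2, j2, hm2, hz2, κ, hκ, hκ1⟩ := hyp z ⟨m1, j1, hm1, hz1⟩
  have hS2 : ∀ x ∈ S, g^[m2] x = x + j2 := by
    rintro x ⟨-, -, m, j, hm, h⟩
    exact same_period g hm hm2 h hz2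
  have hκ2 : κ - 1 ≠ 0 := by
    intro h
    apply hκ1
    have : κ = 1 := by linarith
    rw [this, abs_one]
  have hd : HasDerivAt (fun x => g^[m2] x - x) (κ - 1) z := hκ.sub (hasDerivAt_id z)
  have hev : ∀ᶠ x in 𝓝[≠] z, g^[m2] x - x ≠ (j2 : ℝ) := hd.eventually_ne hκ2
  rw [accPt_iff_frequently] at hacc
  rw [eventually_nhdsWithin_iff] at hev
  obtain ⟨x, ⟨hxz, hxS⟩, hx⟩ := (hacc.and_eventually hev).exists
  apply hx hxz
  rw [hS2 x hxS]
  ring

end Pool.Agent.N102.UF
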