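import Pool.Agent.N102.UF.Fac
import Pool.Agent.TH80.CLX.Fam
import Pool.Agent.TH290.CL.Flow

/-!
# `Ω`-stable diffeomorphisms have no unlocked circle factors
-/

set_option autoImplicit false
set_option linter.unusedSectionVars false

open scoped Manifold ContDiff Topology
open Filter Set

universe u

namespace Pool.Agent.N102.UF

open Pool.Agent.H718R2.G Pool.Agent.W564.SC Pool.Agent.TH80.OMS Pool.Agent.TH80.CLX
open Pool.Agent.TH290.CL CircleDeg1Lift

variable {n : ℕ} {N : Type u} [TopologicalSpace N] [ChartedSpace (V n) N] [IsManifold (𝓡 n) ∞ N]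

theorem flow_fam {ψ : ℝ → N → N} (hψ : IsFlow n N ψ) (r : ℕ∞) (F : DiffM n N r) :
    ∃ H : ℝ → DiffM n N r, IsFam n N r H ∧ (∀ s y, H s y = ψ s (F y)) ∧ H 0 = F := by
  have hr : (r : WithTop ℕ∞) ≤ ∞ := by exact_mod_cast le_top
  have hj : ContMDiff (𝓘(ℝ, ℝ).prod (𝓡 n)) (𝓡 n) r (fun q : ℝ × N => ψ q.1 q.2) :=
    hψ.smooth.of_le hr
  have hsl : ∀ s : ℝ, ContMDiff (𝓡 n) (𝓡 n) r (ψ s) := by
    intro s
    have h1 : ContMDiff (𝓡 n) (𝓘(ℝ, ℝ).prod (𝓡 n)) r (fun y : N => (s, y)) :=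
      contMDiff_const.prodMk contMDiff_id
    exact ContMDiff.comp (g := fun q : ℝ × N => ψ q.1 q.2) (f := fun y : N => (s, y)) hj h1
  have key : ∀ s : ℝ, ∃ H : DiffM n N r, ∀ y, H y = ψ s (F y) := by
    intro s
    have i1 : ∀ y, ψ (-s) (ψ s y) = y := fun y => by
      rw [← hψ.add, neg_add_cancel, hψ.zero]
    have i2 : ∀ y, ψ s (ψ (-s) y) = y := fun y => by
      rw [← hψ.add, add_neg_cancel, hψ.zero]
    exact ⟨F.trans ⟨⟨ψ s, ψ (-s), i1, i2⟩, hsl _, hsl _⟩, fun y => rfl⟩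
  choose H hH using key
  refine ⟨H, ?_, hH, ?_⟩
  · have e : (fun q : ℝ × N => H q.1 q.2) = fun q : ℝ × N => ψ q.1 (F q.2) := by
      funext q
      exact hH q.1 q.2
    intro y
    rw [e]
    have h1 : ContMDiff (𝓘(ℝ, ℝ).prod (𝓡 n)) (𝓘(ℝ, ℝ).prod (𝓡 n)) r
        (fun q : ℝ × N => (q.1, F q.2)) :=
      contMDiff_fst.prodMk (F.contMDiff_toFun.comp contMDiff_snd)
    exact (ContMDiff.comp (g := fun q : ℝ × N => ψ q.1 q.2)
      (f := fun q : ℝ × N => (q.1, F q.2)) hj h1).contMDiffAt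
  · ext y
    rw [hH, hψ.zero]

/-- On the trapping region `A` (for instance `A = N`) the map `F` covers the circle homeomorphism with
the lift `g`: `a : A → S¹` is continuous and `a ∘ F = g ∘ a` on `A` (`ex x = exp(2πix)`), the map `F`
being arbitrary otherwise (an arbitrary skew product over `g`). The circle is rotated by the smooth
flow `ψ` on `N`: `a (ψ_t z) = exp(2πit) a(z)` for `z ∈ F(closure A)` and small `t` (such flows exist if
`a` is a submersion). -/
structure CircleFactor (n : ℕ) (N : Type u) [TopologicalSpace N] [ChartedSpace (V n) N]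
    (F : N → N) (A : Set N) (ψ : ℝ → N → N) (a : N → ℂ) (g : CircleDeg1Lift) : Prop where
  /-- `A` is open -/
  isOpen : IsOpen A
  nonempty : A.Nonempty
  /-- `A` is a trapping region: `F (closure A) ⊆ A` -/
  trap : ∀ y ∈ closure A, F y ∈ A
  contA : ContinuousOn a A
  norm : ∀ y ∈ A, ‖a y‖ = 1
  /-- `ψ` is a smooth flow on `N` -/
  flow : IsFlow n N ψ
  equi : ∃ ε : ℝ, 0 < ε ∧ ∀ y ∈ closure A, ∀ t : ℝ, |t| < ε → a (ψ t (F y)) = ex t * a (F y)
  /-- `g` is a homeomorphism of the line (monotone with `g (x + 1) = g x + 1` by definition) -/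
  cont : Continuous g
  mono : StrictMono g
  fac : ∀ y ∈ A, ∀ x : ℝ, a y = ex x → a (F y) = ex (g x)

variable [T2Space N] [CompactSpace N]

/-- The continuous eigenvalues of the maps near an `Ω`-stable one. -/
theorem spectrum (r : ℕ∞) (F : DiffM n N r) (hF : OmegaStable n N r F) :
    ∃ U : Set (DiffM n N r), IsOpen[strongTop n N r] U ∧ F ∈ U ∧ ∃ E : Set ℂ, E.Countable ∧
      ∀ G ∈ U, ∀ (lam : ℂ) (C : Set N) (u : N → ℂ), OmegaEig G lam C u → lam ∈ E := by
  have : SecondCountableTopology N := ChartedSpace.secondCountable_of_sigmaCompact (V n) N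
  obtain ⟨U, hU, hFU, hc⟩ := hF
  exact ⟨U, hU, hFU, _, countable_conj F.continuous,
    fun G hG lam C u h => ⟨G, C, u, hc G hG, h⟩⟩

theorem locked (r : ℕ∞) (hr : 1 ≤ r) (F : DiffM n N r) (hF : OmegaStable n N r F) {A : Set N}
    {ψ : ℝ → N → N} {a : N → ℂ} {g : CircleDeg1Lift} (h : CircleFactor n N F A ψ a g) :
    ∃ ε : ℝ, 0 < ε ∧ ∀ s : ℝ, |s| < ε → translationNumber (rot g s) = translationNumber g := by
  by_contra hcon
  push Not at hcon
  obtain ⟨U, hU, hFU, E, hE, hspec⟩ := spectrum r F hF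
  obtain ⟨H, hfam, hH, hH0⟩ := flow_fam h.flow r F
  obtain ⟨z, hz⟩ := h.nonempty
  obtain ⟨κ₁, hκ₁, hmem⟩ := fam_mem r hr H hfam z U hU (by rw [hH0]; exact hFU)
  -- small times keep the image in `A`
  have hψc : Continuous fun q : ℝ × N => ψ q.1 q.2 := h.flow.smooth.continuous
  obtain ⟨κ₂, hκ₂, htrap⟩ : ∃ κ₂ : ℝ, 0 < κ₂ ∧ ∀ s : ℝ, |s| < κ₂ → ∀ y ∈ closure A,
      ψ s (F y) ∈ A := by
    have h1 : ∀ᶠ s in 𝓝 (0 : ℝ), ∀ y ∈ closure A, ψ s (F y) ∈ A := by
      apply (isClosed_closure.isCompact).eventually_forall_of_forall_eventually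
      intro y hy
      have h2 : Continuous fun q : ℝ × N => ψ q.1 (F q.2) :=
        hψc.comp (continuous_fst.prodMk (F.continuous.comp continuous_snd))
      refine h2.continuousAt.eventually (h.isOpen.mem_nhds ?_)
      show ψ 0 (F y) ∈ A
      rw [h.flow.zero]
      exact h.trap y hy
    obtain ⟨κ₂, hκ₂, h3⟩ := Metric.eventually_nhds_iff.1 h1
    refine ⟨κ₂, hκ₂, fun s hs => h3 ?_⟩
    rw [Real.dist_eq, sub_zero]
    exact hs
  obtain ⟨ε, hε, hequi⟩ := h.equi
  set κ := min κ₁ (min κ₂ ε) with hκd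
  have hκ : 0 < κ := lt_min hκ₁ (lt_min hκ₂ hε)
  obtain ⟨s0, hs0, hne⟩ := hcon κ hκ
  refine uncountable_tau h.cont hs0 hne ((countable_ex hE).mono ?_)
  rintro α ⟨hirr, s, hs, hsα⟩
  have hs1 : |s| < κ₁ := hs.trans_le (min_le_left _ _)
  have hs2 : |s| < κ₂ := hs.trans_le ((min_le_right _ _).trans (min_le_left _ _))
  have hs3 : |s| < ε := hs.trans_le ((min_le_right _ _).trans (min_le_right _ _))
  have hcov : Covers (H s) A a (rot g s) := by
    intro y hy x hx
    rw [hH, hequi y (subset_closure hy) s hs3, h.fac y hy x hx, rot_apply, ex_add]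
  have htr : ∀ y ∈ closure A, H s y ∈ A := by
    intro y hy
    rw [hH]
    exact htrap s hs2 y hy
  rw [← hsα] at hirr
  obtain ⟨u, hu⟩ := eig_of_factor (H s).continuous h.isOpen htr ⟨z, hz⟩ h.contA h.norm
    (rot_cont h.cont s) (rot_mono h.mono s) hirr hcov
  rw [hsα] at hu
  exact hspec (H s) (hmem s (by rw [Real.norm_eq_abs]; exact hs1)) _ _ _ hu

end Pool.Agent.N102.UF
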