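import Mathlib

/-!
# Continuous eigenfunctions with different eigenvalues are far apart
-/

set_option autoImplicit false

open Filter Set Topology

namespace Pool.Agent.N102.UF

open scoped ComplexConjugate

/-- The averages of the powers of a complex number of modulus one, different from `1`, tend to `0`. -/
theorem avg_small {ν : ℂ} (hν : ‖ν‖ = 1) (h1 : ν ≠ 1) (w : ℂ) (hw : ‖w‖ = 1) :
    ¬ ∀ n : ℕ, 1 / 2 < (ν ^ n * w).re := by
  intro h
  have hne : 0 < ‖ν - 1‖ := norm_pos_iff.2 (sub_ne_zero.2 h1)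
  obtain ⟨n, hn⟩ := exists_nat_gt (4 / ‖ν - 1‖)
  have hsum : ∑ k ∈ Finset.range n, ν ^ k * w = (ν ^ n - 1) / (ν - 1) * w := by
    rw [← Finset.sum_mul, geom_sum_eq h1]
  have hn0 : (0 : ℝ) < n := lt_trans (by positivity) hn
  have hle : ‖∑ k ∈ Finset.range n, ν ^ k * w‖ ≤ 2 / ‖ν - 1‖ := by
    rw [hsum, norm_mul, norm_div, hw, mul_one]
    gcongr
    calc ‖ν ^ n - 1‖ ≤ ‖ν ^ n‖ + ‖(1 : ℂ)‖ := norm_sub_le _ _
      _ = 2 := by rw [norm_pow, hν, one_pow, norm_one]; norm_num
  have hre : (∑ k ∈ Finset.range n, ν ^ k * w).re ≤ 2 / ‖ν - 1‖ :=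
    (Complex.re_le_norm _).trans hle
  have hge : (n : ℝ) * (1 / 2) ≤ (∑ k ∈ Finset.range n, ν ^ k * w).re := by
    rw [Complex.re_sum]
    calc (n : ℝ) * (1 / 2) = ∑ _k ∈ Finset.range n, (1 / 2 : ℝ) := by simp
      _ ≤ _ := Finset.sum_le_sum fun k _ => (h k).le
  have : (4 / ‖ν - 1‖) * (1 / 2) < n * (1 / 2) := by
    apply mul_lt_mul_of_pos_right hn
    norm_num
  have e : (4 / ‖ν - 1‖) * (1 / 2) = 2 / ‖ν - 1‖ := by ring
  linarith

/-- Eigenfunctions of modulus one with different eigenvalues differ somewhere by at least one. -/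
theorem eig_sep {X : Type*} {T : X → X} {C : Set X} (hC : C.Nonempty) (hT : ∀ x ∈ C, T x ∈ C)
    {u v : X → ℂ} {lam mu : ℂ} (hl : ‖lam‖ = 1) (hm : ‖mu‖ = 1) (hne : lam ≠ mu)
    (hu : ∀ x ∈ C, ‖u x‖ = 1) (hv : ∀ x ∈ C, ‖v x‖ = 1)
    (hTu : ∀ x ∈ C, u (T x) = lam * u x) (hTv : ∀ x ∈ C, v (T x) = mu * v x) :
    ∃ x ∈ C, 1 ≤ ‖u x - v x‖ := by
  by_contra hcon
  push Not at hcon
  obtain ⟨x, hx⟩ := hC
  have hit : ∀ n : ℕ, T^[n] x ∈ C := by
    intro n
    induction n with
    | zero => exact hx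
    | succ n ih => rw [Function.iterate_succ_apply']; exact hT _ ih
  set ν : ℂ := lam * conj mu with hνd
  have hν : ‖ν‖ = 1 := by rw [hνd, norm_mul, hl, one_mul, RCLike.norm_conj, hm]
  have hmm : conj mu * mu = 1 := by
    rw [← Complex.normSq_eq_conj_mul_self, Complex.normSq_eq_norm_sq, hm]
    norm_num
  have hν1 : ν ≠ 1 := by
    intro h
    apply hne
    have h2 : ν * mu = mu := by rw [h, one_mul]
    rw [hνd, mul_assoc, hmm, mul_one] at h2
    exact h2
  have hw : ∀ n : ℕ, u (T^[n] x) * conj (v (T^[n] x)) = ν ^ n * (u x * conj (v x)) := by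
    intro n
    induction n with
    | zero => simp
    | succ n ih =>
      rw [Function.iterate_succ_apply', hTu _ (hit n), hTv _ (hit n), map_mul]
      rw [show lam * u (T^[n] x) * (conj mu * conj (v (T^[n] x))) =
        ν * (u (T^[n] x) * conj (v (T^[n] x))) by rw [hνd]; ring, ih, pow_succ]
      ring
  refine avg_small hν hν1 (u x * conj (v x)) ?_ fun n => ?_
  · rw [norm_mul, RCLike.norm_conj, hu x hx, hv x hx, one_mul]
  · rw [← hw n]
    have h1 := hcon _ (hit n)
    have hun := hu _ (hit n)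
    have hvn := hv _ (hit n)
    set a := u (T^[n] x)
    set b := v (T^[n] x)
    have h2 : ‖a - b‖ ^ 2 = ‖a‖ ^ 2 + ‖b‖ ^ 2 - 2 * (a * conj b).re := by
      rw [← Complex.normSq_eq_norm_sq, ← Complex.normSq_eq_norm_sq, ← Complex.normSq_eq_norm_sq,
        Complex.normSq_sub]
    rw [hun, hvn] at h2
    have h3 : ‖a - b‖ ^ 2 < 1 := by
      have := norm_nonneg (a - b)
      nlinarith
    linarith

/-- Data: a continuous function on `X` which is of modulus one on `C` and zero elsewhere, and an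
eigenfunction of `T` on the nonempty forward invariant set `C`. -/
structure EigData (X : Type*) [TopologicalSpace X] (T : X → X) (lam : ℂ) (C : Set X)
    (u : X → ℂ) : Prop where
  ne : C.Nonempty
  inv : ∀ x ∈ C, T x ∈ C
  cont : Continuous u
  off : ∀ x, x ∉ C → u x = 0
  one : ∀ x ∈ C, ‖u x‖ = 1
  eig : ∀ x ∈ C, u (T x) = lam * u x

theorem EigData.norm {X : Type*} [TopologicalSpace X] {T : X → X} {lam : ℂ} {C : Set X}
    {u : X → ℂ} (h : EigData X T lam C u) : ‖lam‖ = 1 := by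
  obtain ⟨x, hx⟩ := h.ne
  have h1 := h.one _ (h.inv x hx)
  rw [h.eig x hx, norm_mul, h.one x hx, mul_one] at h1
  exact h1

theorem EigData.sep {X : Type*} [TopologicalSpace X] {T : X → X} {lam mu : ℂ} {C D : Set X}
    {u v : X → ℂ} (h : EigData X T lam C u) (h' : EigData X T mu D v) (hne : lam ≠ mu) :
    ∃ x, 1 ≤ ‖u x - v x‖ := by
  by_cases hCD : C = D
  · subst hCD
    obtain ⟨x, -, hx⟩ := eig_sep h.ne h.inv h.norm h'.norm hne h.one h'.one h.eig h'.eig
    exact ⟨x, hx⟩
  · have : ∃ x, (x ∈ C ∧ x ∉ D) ∨ (x ∉ C ∧ x ∈ D) := by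
      by_contra hcon
      push Not at hcon
      apply hCD
      ext x
      by_cases hx : x ∈ C
      · exact ⟨fun _ => (hcon x).1 hx, fun _ => hx⟩
      · exact ⟨fun h => absurd h hx, fun h => absurd h ((hcon x).2 hx)⟩
    obtain ⟨x, hx | hx⟩ := this
    · refine ⟨x, ?_⟩
      rw [h'.off x hx.2, sub_zero, h.one x hx.1]
    · refine ⟨x, ?_⟩
      rw [h.off x hx.1, zero_sub, norm_neg, h'.one x hx.2]

/-- On a compact metrizable space there are only countably many such eigenvalues. -/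
theorem countable_eig {X : Type*} [TopologicalSpace X] [CompactSpace X] [T2Space X]
    [SecondCountableTopology X] (T : X → X) :
    {lam : ℂ | ∃ (C : Set X) (u : X → ℂ), EigData X T lam C u}.Countable := by
  classical
  set S : Set ℂ := {lam : ℂ | ∃ (C : Set X) (u : X → ℂ), EigData X T lam C u} with hS
  have hch : ∀ l : S, ∃ (u : C(X, ℂ)), ∃ C : Set X, EigData X T l.1 C u := by
    rintro ⟨l, C, u, h⟩
    exact ⟨⟨u, h.cont⟩, C, h⟩
  choose U C hU using hch
  have hsep : ∀ l m : S, l ≠ m → 1 ≤ dist (U l) (U m) := by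
    intro l m hlm
    have hne : l.1 ≠ m.1 := fun h => hlm (Subtype.ext h)
    obtain ⟨x, hx⟩ := (hU l).sep (hU m) hne
    calc (1 : ℝ) ≤ ‖U l x - U m x‖ := hx
      _ = dist (U l x) (U m x) := (dist_eq_norm _ _).symm
      _ ≤ dist (U l) (U m) := ContinuousMap.dist_apply_le_dist x
  have hdisj : Pairwise (Function.onFun Disjoint fun l : S => Metric.ball (U l) (1 / 2)) := by
    intro l m hlm
    refine Metric.ball_disjoint_ball ?_
    have := hsep l m hlm
    linarith
  have : Countable S := by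
    have hc : (Set.univ : Set S).Countable := by
      have h1 : (Set.univ : Set S).PairwiseDisjoint fun l : S => Metric.ball (U l) (1 / 2) :=
        fun l _ m _ hlm => hdisj hlm
      exact h1.countable_of_isOpen (fun _ _ => Metric.isOpen_ball)
        (fun l _ => ⟨U l, Metric.mem_ball_self (by norm_num)⟩)
    exact Set.countable_univ_iff.1 hc
  exact Set.countable_coe_iff.1 this

end Pool.Agent.N102.UF
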